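import Pool.Agent.helper64.NQ.Spec

set_option autoImplicit false

namespace Pool.Agent.NQ

open Pool.Agent.helper58.DC Pool.Agent.DI Pool.Agent.DR

theorem GNC_alt (hOMA : OMA_stmt) {Q : Type} [CommGroup Q] (N : Subgroup Q) {β : Q → Q → ℂˣ}
    (hβ : β ∈ Coc Q) : IsAlt N (om β) :=
  hOMA Q N (fun x _ y _ => mul_comm x y) β
    ⟨fun a _ b _ c _ => hβ.1 a b c, fun a _ => ⟨hβ.2.1 a, hβ.2.2 a⟩⟩

theorem GNC_om1 {Q : Type} [CommGroup Q] {β : Q → Q → ℂˣ} (hβ : β ∈ Coc Q) (y : Q) :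
    om β y 1 = 1 := by
  unfold om
  rw [hβ.2.1 y, hβ.2.2 y, one_mul, inv_one]

/-- the radical, as a subgroup -/
def GNC_R (hOMA : OMA_stmt) {Q : Type} [CommGroup Q] (N : Subgroup Q) {β : Q → Q → ℂˣ}
    (hβ : β ∈ Coc Q) : Subgroup Q where
  carrier := Rd N (om β)
  mul_mem' := by
    rintro a b ⟨ha, ha'⟩ ⟨hb, hb'⟩
    refine ⟨N.mul_mem ha hb, fun y hy => ?_⟩
    rw [(GNC_alt hOMA N hβ).mul_right y hy a ha b hb, ha' y hy, hb' y hy, one_mul]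
  one_mem' := ⟨N.one_mem, fun y _ => GNC_om1 hβ y⟩
  inv_mem' := by
    rintro a ⟨ha, ha'⟩
    refine ⟨N.inv_mem ha, fun y hy => ?_⟩
    have h := (GNC_alt hOMA N hβ).mul_right y hy a ha a⁻¹ (N.inv_mem ha)
    rw [mul_inv_cancel, GNC_om1 hβ, ha' y hy, one_mul] at h
    exact h.symm

theorem GNC_inv (hGN1 : GN1_stmt) {Q : Type} [CommGroup Q] [Finite Q] (N : Subgroup Q)
    {β : Q → Q → ℂˣ} (hβ : β ∈ Coc Q) (hR : ∀ z ∈ Rd N (om β), ∀ q : Q, om β q z = 1)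
    (σ : Q → ℂ) (k : ℕ) (h : PIrr N β σ k) : PInv N β σ := by
  intro q n hn
  have h1 : q * n * q⁻¹ = n := by
    rw [mul_comm q n, mul_assoc, mul_inv_cancel, mul_one]
  rw [h1]
  by_cases hz : n ∈ Rd N (om β)
  · have h2 : tw β q n = 1 := by
      unfold tw
      rw [h1]
      exact hR n hz q
    rw [h2, Units.val_one, one_mul]
  · have h3 := (hGN1 Q N (fun x _ y _ => mul_comm x y) β hβ σ k h).1 n hn hz
    rw [h3, mul_zero]

theorem GNC_twist {Q : Type} [CommGroup Q] (N : Subgroup Q)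
    {β : Q → Q → ℂˣ} (σ : Q → ℂ) (k : ℕ) (h : PIrr N β σ k) (l : Q →* ℂˣ) :
    PIrr N β (fun z => ((l z : ℂˣ) : ℂ) * σ z) k := by
  refine ⟨fun n hn => ?_, ?_, ?_⟩
  · rw [h.off n hn, mul_zero]
  · obtain ⟨V, i1, i2, i3, S, h1, h2, h3, h4⟩ := h.rep
    refine ⟨V, i1, i2, i3, fun n => ((l n : ℂˣ) : ℂ) • S n, ?_, ?_, h3, ?_⟩
    · dsimp only
      rw [map_one, Units.val_one, one_smul, h1]
    · intro n hn n' hn'
      dsimp only
      rw [smul_mul_smul_comm, h2 n hn n' hn', smul_smul, smul_smul, map_mul, Units.val_mul,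
        mul_comm ((β n n' : ℂˣ) : ℂ)]
    · intro n hn
      dsimp only
      rw [map_smul, smul_eq_mul, h4 n hn]
  · rw [← h.norm]
    apply finsum_congr
    intro n
    apply finsum_congr
    intro _
    have h5 : ((l n : ℂˣ) : ℂ) * ((l n⁻¹ : ℂˣ) : ℂ) = 1 := by
      rw [← Units.val_mul, ← map_mul, mul_inv_cancel, map_one, Units.val_one]
    calc ((l n : ℂˣ) : ℂ) * σ n * (((l n⁻¹ : ℂˣ) : ℂ) * σ n⁻¹) * ((β n n⁻¹ : ℂˣ) : ℂ)⁻¹
        = (((l n : ℂˣ) : ℂ) * ((l n⁻¹ : ℂˣ) : ℂ)) * (σ n * σ n⁻¹ * ((β n n⁻¹ : ℂˣ) : ℂ)⁻¹) := by ring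
      _ = _ := by rw [h5, one_mul]

theorem GNC_count (hGN1 : GN1_stmt) (hOMA : OMA_stmt) {Q : Type} [CommGroup Q] [Finite Q]
    (N : Subgroup Q) {β : Q → Q → ℂˣ} (hβ : β ∈ Coc Q)
    (hR : ∀ z ∈ Rd N (om β), ∀ q : Q, om β q z = 1)
    (hex : ∃ (σ : Q → ℂ) (k : ℕ), PIrr N β σ k) :
    GN N β (fun _ => True) = Nat.card (Rd N (om β)) := by
  obtain ⟨σ₀, k₀, h₀⟩ := hex
  obtain ⟨hz₀, ⟨c₀, hc₀, hm₀⟩, hk₀⟩ := hGN1 Q N (fun x _ y _ => mul_comm x y) β hβ σ₀ k₀ h₀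
  have hNpos : 0 < Nat.card N := Nat.card_pos
  have hRpos : 0 < Nat.card (Rd N (om β)) := by
    rcases Nat.eq_zero_or_pos (Nat.card (Rd N (om β))) with h | h
    · rw [h, mul_zero] at hk₀
      omega
    · exact h
  have hk₀0 : k₀ ≠ 0 := by
    rintro rfl
    rw [zero_pow two_ne_zero, zero_mul] at hk₀
    omega
  have hσ₀ : ∀ z ∈ Rd N (om β), σ₀ z ≠ 0 := by
    intro z hz
    rw [hc₀ z hz]
    exact mul_ne_zero (Nat.cast_ne_zero.2 hk₀0) (Units.ne_zero _)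
  have hσ₀' : ∀ z, z ∉ Rd N (om β) → σ₀ z = 0 := by
    intro z hz
    by_cases hzN : z ∈ N
    · exact hz₀ z hzN hz
    · exact h₀.off z hzN
  have hext := MonoidHom.domRestrict_surjective (G := Q) (M := ℂ) (GNC_R hOMA N hβ)
  choose ext hext' using hext
  have hval : ∀ (χ : GNC_R hOMA N hβ →* ℂˣ) (z : GNC_R hOMA N hβ), ext χ (z : Q) = χ z := by
    intro χ z
    have := DFunLike.congr_fun (hext' χ) z
    exact this
  let Φ : (GNC_R hOMA N hβ →* ℂˣ) → {σ : Q → ℂ // ∃ k, PIrr N β σ k ∧ True ∧ PInv N β σ} :=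
    fun χ => ⟨fun z => ((ext χ z : ℂˣ) : ℂ) * σ₀ z, k₀, GNC_twist N σ₀ k₀ h₀ (ext χ), trivial,
      GNC_inv hGN1 N hβ hR _ k₀ (GNC_twist N σ₀ k₀ h₀ (ext χ))⟩
  have hinj : Function.Injective Φ := by
    intro χ χ' h
    apply MonoidHom.ext
    intro z
    have h1 := congrFun (congrArg Subtype.val h) (z : Q)
    change ((ext χ z : ℂˣ) : ℂ) * σ₀ z = ((ext χ' z : ℂˣ) : ℂ) * σ₀ z at h1
    have h2 := Units.ext (mul_right_cancel₀ (hσ₀ z z.2) h1)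
    rw [hval, hval] at h2
    exact h2
  have hsurj : Function.Surjective Φ := by
    rintro ⟨σ, k, hσ, -, hinv⟩
    obtain ⟨hz1, ⟨c, hc, hm⟩, hk⟩ := hGN1 Q N (fun x _ y _ => mul_comm x y) β hβ σ k hσ
    have hkk : k = k₀ := by
      have h1 : k ^ 2 = k₀ ^ 2 := by
        apply Nat.eq_of_mul_eq_mul_right hRpos
        rw [hk, hk₀]
      exact Nat.pow_left_injective two_ne_zero h1
    let χ : GNC_R hOMA N hβ →* ℂˣ := MonoidHom.mk' (fun z => c z * (c₀ z)⁻¹) (by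
      intro a b
      have ha := hm a a.2 b b.2
      have hb := hm₀ a a.2 b b.2
      have ha' : c ((a * b : GNC_R hOMA N hβ) : Q) = (β a b)⁻¹ * (c a * c b) := by
        rw [ha, inv_mul_cancel_left]
        rfl
      have hb' : c₀ ((a * b : GNC_R hOMA N hβ) : Q) = (β a b)⁻¹ * (c₀ a * c₀ b) := by
        rw [hb, inv_mul_cancel_left]
        rfl
      rw [ha', hb', mul_inv, mul_inv, inv_inv, mul_mul_mul_comm, inv_mul_cancel, one_mul,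
        mul_mul_mul_comm])
    refine ⟨χ, Subtype.ext ?_⟩
    change (fun z => ((ext χ z : ℂˣ) : ℂ) * σ₀ z) = σ
    funext z
    by_cases hz : z ∈ Rd N (om β)
    · have h1 : ext χ z = c z * (c₀ z)⁻¹ := hval χ ⟨z, hz⟩
      rw [h1, hc₀ z hz, hc z hz, hkk, Units.val_mul]
      have h2 : (((c₀ z)⁻¹ : ℂˣ) : ℂ) * ((c₀ z : ℂˣ) : ℂ) = 1 := Units.inv_mul _
      calc ((c z : ℂˣ) : ℂ) * (((c₀ z)⁻¹ : ℂˣ) : ℂ) * ((k₀ : ℂ) * ((c₀ z : ℂˣ) : ℂ))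
          = (k₀ : ℂ) * ((c z : ℂˣ) : ℂ) * ((((c₀ z)⁻¹ : ℂˣ) : ℂ) * ((c₀ z : ℂˣ) : ℂ)) := by ring
        _ = _ := by rw [h2, mul_one]
    · rw [hσ₀' z hz, mul_zero]
      by_cases hzN : z ∈ N
      · exact (hz1 z hzN hz).symm
      · exact (hσ.off z hzN).symm
  unfold GN
  rw [← Nat.card_congr (Equiv.ofBijective Φ ⟨hinj, hsurj⟩),
    CommGroup.card_monoidHom_of_hasEnoughRootsOfUnity]
  rfl

theorem GNC (hGN1 : GN1_stmt) (hOMA : OMA_stmt) : GNC_stmt := by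
  intro Q _ _ hc N β hβ hex hR
  letI : CommGroup Q := { (inferInstance : Group Q) with mul_comm := hc }
  exact ⟨fun σ k h => GNC_inv hGN1 N hβ hR σ k h, GNC_count hGN1 hOMA N hβ hR hex⟩

end Pool.Agent.NQ
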