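import Pool.Agent.helper64.NQ.Spec

set_option autoImplicit false

namespace Pool.Agent.NQ

open Pool.Agent.helper58.DC Pool.Agent.DI Pool.Agent.DR

theorem NZC_B {B : Type} [CommGroup B] [Finite B] (n : ℕ) (hn : Squarefree n)
    (hB : ∀ b : B, b ^ n = 1)
    (h : ∀ r ∈ n.primeFactors, Nat.card (powMonoidHom r : B →* B).ker = r ^ 2) :
    Nat.card B = n ^ 2 := by
  have hn0 : n ≠ 0 := hn.ne_zero
  refine Nat.eq_of_factorization_eq Nat.card_pos.ne' (pow_ne_zero _ hn0) fun r => ?_
  by_cases hr : r.Prime
  · have : Fact r.Prime := ⟨hr⟩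
    rw [Nat.factorization_pow, Finsupp.smul_apply, smul_eq_mul]
    by_cases hrn : r ∣ n
    · have h1 : n.factorization r = 1 := by
        have h2 := hn.natFactorization_le_one r
        have h3 := hr.factorization_pos_of_dvd hn0 hrn
        omega
      rw [h1, Subgroup.card_eq_card_quotient_mul_card_subgroup (powMonoidHom r : B →* B).ker,
        h r (Nat.mem_primeFactors.2 ⟨hr, hrn, hn0⟩),
        Nat.factorization_mul Nat.card_pos.ne' (pow_ne_zero _ hr.ne_zero), Finsupp.add_apply,
        hr.factorization_pow, Finsupp.single_eq_same, Nat.factorization_eq_zero_of_not_dvd, zero_add]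
      intro hd
      obtain ⟨x, hx⟩ := exists_prime_orderOf_dvd_card' r hd
      obtain ⟨b, rfl⟩ := QuotientGroup.mk_surjective x
      have h4 : ((b : B ⧸ (powMonoidHom r : B →* B).ker)) ^ r = 1 := by
        have h4' := pow_orderOf_eq_one (b : B ⧸ (powMonoidHom r : B →* B).ker)
        rwa [hx] at h4'
      rw [← QuotientGroup.mk_pow, QuotientGroup.eq_one_iff, MonoidHom.mem_ker] at h4
      have h5 : (b ^ r) ^ r = 1 := h4
      rw [← pow_mul] at h5
      have h6 : b ^ (Nat.gcd (r * r) n) = 1 :=
        (orderOf_dvd_iff_pow_eq_one).1 (Nat.dvd_gcd (orderOf_dvd_of_pow_eq_one h5)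
          (orderOf_dvd_of_pow_eq_one (hB b)))
      have h7 : Nat.gcd (r * r) n = r := by
        obtain ⟨m, rfl⟩ := hrn
        rw [Nat.gcd_mul_left]
        have h8 : Nat.gcd r m = 1 := by
          rcases (Nat.coprime_or_dvd_of_prime hr m) with h9 | h9
          · exact h9
          · exfalso
            obtain ⟨l, rfl⟩ := h9
            exact hr.not_isUnit (hn r ⟨l, by ring⟩)
        rw [h8, mul_one]
      rw [h7] at h6
      have h10 : (b : B ⧸ (powMonoidHom r : B →* B).ker) = 1 := by
        rw [QuotientGroup.eq_one_iff, MonoidHom.mem_ker]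
        exact h6
      rw [h10, orderOf_one] at hx
      exact hr.one_lt.ne hx
    · rw [Nat.factorization_eq_zero_of_not_dvd hrn, Nat.factorization_eq_zero_of_not_dvd]
      intro hd
      obtain ⟨x, hx⟩ := exists_prime_orderOf_dvd_card' r hd
      exact hrn (hx ▸ orderOf_dvd_of_pow_eq_one (hB x))
  · rw [Nat.factorization_eq_zero_of_not_prime _ hr, Nat.factorization_eq_zero_of_not_prime _ hr]

theorem NZC : NZC_stmt := by
  intro A _ _ hc n hn hA h
  let _ : CommGroup A := { (inferInstance : Group A) with mul_comm := hc }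
  have hcard : Nat.card (A →* ℂˣ) = Nat.card A :=
    CommGroup.card_monoidHom_of_hasEnoughRootsOfUnity A ℂ
  have hfin : Finite (A →* ℂˣ) := by
    apply Nat.finite_of_card_ne_zero
    rw [hcard]
    exact Nat.card_pos.ne'
  rw [← hcard]
  refine NZC_B n hn (fun b => ?_) fun r hr => ?_
  · apply MonoidHom.ext
    intro a
    rw [MonoidHom.pow_apply, ← map_pow, hA a, map_one, MonoidHom.one_apply]
  · rw [← h r hr]
    refine Nat.card_congr (Equiv.subtypeEquivRight fun f => ?_)
    constructor
    · intro hf a
      have h1 : f ^ r = 1 := hf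
      have h2 := DFunLike.congr_fun h1 a
      rwa [MonoidHom.pow_apply, MonoidHom.one_apply] at h2
    · intro hf
      change f ^ r = 1
      apply MonoidHom.ext
      intro a
      rw [MonoidHom.pow_apply, hf a, MonoidHom.one_apply]

end Pool.Agent.NQ
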